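import Mathlib
set_option autoImplicit false
open MvPolynomial

namespace Pool.Agent.Helper794.PLg1

abbrev AA := MvPolynomial (Fin 2) ℂ

lemma dual_eval (ρ : AA →ₐ[ℂ] DualNumber ℂ) (f : AA) :
    (ρ f).fst = eval (fun j => (ρ (X j)).fst) f ∧
    (ρ f).snd = ∑ j, (ρ (X j)).snd * eval (fun j => (ρ (X j)).fst) (pderiv j f) := by
  induction f using MvPolynomial.induction_on with
  | C a =>
    have h : ρ (C a) = TrivSqZeroExt.inl a := by
      have := ρ.commutes a
      rw [MvPolynomial.algebraMap_eq] at this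
      rw [this]; rfl
    rw [h]
    simp
  | add p q hp hq =>
    rw [map_add, TrivSqZeroExt.fst_add, TrivSqZeroExt.snd_add, hp.1, hp.2, hq.1, hq.2]
    refine ⟨by simp, ?_⟩
    rw [← Finset.sum_add_distrib]
    apply Finset.sum_congr rfl
    intro j _
    simp only [map_add]
    ring
  | mul_X p i hp =>
    rw [map_mul, TrivSqZeroExt.fst_mul, DualNumber.snd_mul, hp.1, hp.2]
    refine ⟨by simp, ?_⟩
    have : ∀ j : Fin 2, (ρ (X j)).snd * eval (fun j => (ρ (X j)).fst) (pderiv j (p * X i))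
        = ((ρ (X j)).snd * eval (fun j => (ρ (X j)).fst) (pderiv j p)) * (ρ (X i)).fst
          + eval (fun j => (ρ (X j)).fst) p * ((ρ (X j)).snd * (if i = j then 1 else 0)) := by
      intro j
      rw [Derivation.leibniz, pderiv_X]
      simp only [smul_eq_mul, map_add, map_mul, eval_X]
      by_cases h : i = j
      · subst h; simp; ring
      · simp [h, Pi.single_apply, Ne.symm h]; ring
    rw [Finset.sum_congr rfl (fun j _ => this j), Finset.sum_add_distrib, ← Finset.sum_mul, ← Finset.mul_sum]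
    simp
    ring

/-- the core: `1, t` span modulo the ideal of a point -/
lemma core (x : Fin 4 → AA) (t : AA) (hgen : Algebra.adjoin ℂ (insert t (Set.range x)) = ⊤)
    (himm : ∀ p ξ : Fin 2 → ℂ, (∀ i, ∑ j, ξ j * eval p (pderiv j (x i)) = 0) → ξ = 0)
    (hnt : ∀ p q r : Fin 2 → ℂ, (∀ i, eval p (x i) = eval q (x i)) →
      (∀ i, eval p (x i) = eval r (x i)) → p = q ∨ p = r ∨ q = r)
    (p : Fin 2 → ℂ) (J : Ideal AA) (hJ : ∀ i, x i - C (eval p (x i)) ∈ J)
    (f : Polynomial ℂ) (hf0 : f ≠ 0) (hf : Polynomial.aeval t f ∈ J) (a : AA) :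
    ∃ c0 c1 : ℂ, a - (C c0 + C c1 * t) ∈ J := by
  classical
  let π : AA →ₐ[ℂ] (AA ⧸ J) := Ideal.Quotient.mkₐ ℂ J
  let ψ : Polynomial ℂ →ₐ[ℂ] (AA ⧸ J) := Polynomial.aeval (π t)
  have hψX : ψ Polynomial.X = π t := Polynomial.aeval_X _
  have hπx : ∀ i, π (x i) = algebraMap ℂ _ (eval p (x i)) := by
    intro i
    have h1 : π (x i - C (eval p (x i))) = 0 := Ideal.Quotient.eq_zero_iff_mem.2 (hJ i)
    rw [map_sub, sub_eq_zero] at h1
    rw [h1]
    exact π.commutes (eval p (x i))
  have hψs : Function.Surjective ψ := by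
    have hle : (⊤ : Subalgebra ℂ AA) ≤ ψ.range.comap π := by
      rw [← hgen, Algebra.adjoin_le_iff]
      intro y hy
      rcases hy with rfl | ⟨i, rfl⟩
      · exact ⟨Polynomial.X, hψX⟩
      · refine ⟨Polynomial.C (eval p (x i)), ?_⟩
        have := hπx i
        change ψ (Polynomial.C (eval p (x i))) = π (x i)
        rw [this]
        exact ψ.commutes (eval p (x i))
    intro y
    obtain ⟨b, rfl⟩ := Ideal.Quotient.mk_surjective y
    have : b ∈ (⊤ : Subalgebra ℂ AA) := trivial
    obtain ⟨g, hg⟩ := hle this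
    exact ⟨g, hg⟩
  have hψf : ψ f = 0 := by
    have : ψ f = π (Polynomial.aeval t f) := by
      change Polynomial.aeval (π t) f = _
      rw [Polynomial.aeval_algHom_apply]
    rw [this]
    exact Ideal.Quotient.eq_zero_iff_mem.2 hf
  -- generator of the kernel
  obtain ⟨h, hh⟩ : ∃ h : Polynomial ℂ, RingHom.ker ψ.toRingHom = Ideal.span {h} :=
    ⟨_, (Submodule.IsPrincipal.span_singleton_generator (RingHom.ker ψ.toRingHom)).symm⟩
  have hmem : ∀ g : Polynomial ℂ, ψ g = 0 ↔ h ∣ g := by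
    intro g
    rw [← Ideal.mem_span_singleton, ← hh]
    rfl
  have h0 : h ≠ 0 := by
    rintro rfl
    have := (hmem f).1 hψf
    exact hf0 (zero_dvd_iff.1 this)
  -- lifting
  have hlift : ∀ (R : Type) [CommRing R] [Algebra ℂ R] (s : R), Polynomial.aeval s h = 0 →
      ∃ ρ : AA →ₐ[ℂ] R, ρ t = s ∧ ∀ i, ρ (x i) = algebraMap ℂ R (eval p (x i)) := by
    intro R _ _ s hs
    have H : RingHom.ker ψ.toRingHom ≤ RingHom.ker (Polynomial.aeval s : Polynomial ℂ →ₐ[ℂ] R).toRingHom := by
      rw [hh, Ideal.span_singleton_le_iff_mem]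
      exact hs
    refine ⟨(AlgHom.liftOfSurjective ψ hψs (Polynomial.aeval s) H).comp π, ?_, ?_⟩
    · rw [AlgHom.comp_apply, ← hψX, AlgHom.liftOfSurjective_apply, Polynomial.aeval_X]
    · intro i
      rw [AlgHom.comp_apply, hπx i, AlgHom.commutes]
  have hsimple : ∀ τ : ℂ, ¬ (Polynomial.X - Polynomial.C τ)^2 ∣ h := by
    rintro τ ⟨g, hg⟩
    obtain ⟨ρ, h1, h2⟩ := hlift (DualNumber ℂ) (algebraMap ℂ _ τ + DualNumber.eps) (by
      rw [hg]
      simp only [map_mul, map_pow, map_sub, Polynomial.aeval_X, Polynomial.aeval_C, add_sub_cancel_left]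
      rw [pow_two, DualNumber.eps_mul_eps, zero_mul])
    have h3 := himm (fun j => (ρ (X j)).fst) (fun j => (ρ (X j)).snd) (by
      intro i
      have := (dual_eval ρ (x i)).2
      rw [h2 i] at this
      rw [← this]
      rfl)
    have h4 := (dual_eval ρ t).2
    rw [h1] at h4
    have h5 : ∀ j, (ρ (X j)).snd = 0 := fun j => congrFun h3 j
    simp only [h5, zero_mul, Finset.sum_const_zero] at h4
    have h6 : (algebraMap ℂ (DualNumber ℂ) τ + DualNumber.eps).snd = (1:ℂ) := by
      rw [TrivSqZeroExt.snd_add, DualNumber.snd_eps]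
      change (0:ℂ) + 1 = 1
      ring
    rw [h6] at h4
    exact one_ne_zero h4
  have hdeg : h.natDegree ≤ 2 := by
    by_contra hcon
    have hcard : h.roots.card = h.natDegree := by
      have := IsAlgClosed.splits h
      exact (Polynomial.splits_iff_card_roots.1 this)
    have hnodup : h.roots.Nodup := by
      rw [Multiset.nodup_iff_count_le_one]
      intro τ
      by_contra hc
      rw [Polynomial.count_roots, not_le] at hc
      exact hsimple τ ((Polynomial.le_rootMultiplicity_iff h0).1 hc)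
    have hfc : 2 < h.roots.toFinset.card := by
      rw [Multiset.toFinset_card_of_nodup hnodup, hcard]
      omega
    rw [Finset.two_lt_card] at hfc
    obtain ⟨a1, ha1, a2, ha2, a3, ha3, h12, h13, h23⟩ := hfc
    have hpt : ∀ τ ∈ h.roots.toFinset, ∃ q : Fin 2 → ℂ, eval q t = τ ∧ ∀ i, eval q (x i) = eval p (x i) := by
      intro τ hτ
      rw [Multiset.mem_toFinset, Polynomial.mem_roots h0] at hτ
      obtain ⟨ρ, h1, h2⟩ := hlift ℂ τ (by rw [Polynomial.aeval_def, Polynomial.eval₂_eq_eval_map]; simpa using hτ)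
      have hρ : ρ = aeval (fun j => ρ (X j)) := by
        apply MvPolynomial.algHom_ext
        intro j
        simp
      refine ⟨fun j => ρ (X j), ?_, ?_⟩
      · rw [← h1]
        conv_rhs => rw [hρ]
        rw [← MvPolynomial.coe_aeval_eq_eval]; rfl
      · intro i
        have h3 := h2 i
        rw [Algebra.algebraMap_self, RingHom.id_apply] at h3
        rw [← h3]
        conv_rhs => rw [hρ]
        rw [← MvPolynomial.coe_aeval_eq_eval]; rfl
    obtain ⟨q1, e1, f1⟩ := hpt a1 ha1
    obtain ⟨q2, e2, f2⟩ := hpt a2 ha2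
    obtain ⟨q3, e3, f3⟩ := hpt a3 ha3
    rcases hnt q1 q2 q3 (fun i => by rw [f1, f2]) (fun i => by rw [f1, f3]) with h | h | h
    · exact h12 (by rw [← e1, ← e2, h])
    · exact h13 (by rw [← e1, ← e3, h])
    · exact h23 (by rw [← e2, ← e3, h])
  obtain ⟨g, hg⟩ := hψs (π a)
  have hr : ψ (g % h) = ψ g := by
    have h1 : ψ (h * (g / h)) = 0 := (hmem _).2 (Dvd.intro _ rfl)
    have h2 := EuclideanDomain.div_add_mod g h
    conv_rhs => rw [← h2, map_add, h1, zero_add]
  have hrd : (g % h).natDegree ≤ 1 := by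
    by_cases hz : g % h = 0
    · rw [hz]; simp
    · have h1 : (g % h).degree < h.degree := EuclideanDomain.mod_lt g h0
      have h2 := Polynomial.natDegree_lt_natDegree hz h1
      omega
  obtain ⟨c1, c0, hc⟩ := Polynomial.exists_eq_X_add_C_of_natDegree_le_one hrd
  refine ⟨c0, c1, ?_⟩
  rw [← Ideal.Quotient.eq_zero_iff_mem]
  change π (a - (C c0 + C c1 * t)) = 0
  rw [map_sub, ← hg, ← hr, hc, sub_eq_zero]
  simp only [map_add, map_mul, hψX]
  have k0 : ψ (Polynomial.C c0) = π (C c0) := by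
    rw [show ψ (Polynomial.C c0) = algebraMap ℂ _ c0 from ψ.commutes c0]
    exact (π.commutes c0).symm
  have k1 : ψ (Polynomial.C c1) = π (C c1) := by
    rw [show ψ (Polynomial.C c1) = algebraMap ℂ _ c1 from ψ.commutes c1]
    exact (π.commutes c1).symm
  rw [k0, k1]
  ring

end Pool.Agent.Helper794.PLg1
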