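import Mathlib
import Pool.Agent.Helper794.PLg1
set_option autoImplicit false
open MvPolynomial

namespace Pool.Agent.Helper794.PLg1

section abs
variable {k A : Type*} [Field k] [CommRing A] [Algebra k A]

lemma adjoin_top (s : Set A) (t : A) (h : Algebra.adjoin k (insert t s) = ⊤) :
    Algebra.adjoin (Algebra.adjoin k s) {t} = ⊤ := by
  have h1 : insert t s = s ∪ {t} := by rw [Set.union_comm]; rfl
  rw [h1, Algebra.adjoin_union_eq_adjoin_adjoin] at h
  rw [eq_top_iff]
  intro y _
  have : y ∈ (Algebra.adjoin (Algebra.adjoin k s) {t}).restrictScalars k := by rw [h]; trivial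
  exact this

lemma finite_of (s : Set A) (t : A) (h : Algebra.adjoin k (insert t s) = ⊤)
    (hint : IsIntegral (Algebra.adjoin k s) t) : Module.Finite (Algebra.adjoin k s) A := by
  have h1 := hint.fg_adjoin_singleton
  rw [adjoin_top s t h] at h1
  exact ⟨by simpa using h1⟩

lemma nak {B : Type*} [CommRing B] [Algebra B A] [Module.Finite B A] (N : Submodule B A)
    (hcore : ∀ n : Ideal B, n.IsMaximal → ∀ y : A, ∃ c ∈ N, y - c ∈ (n • ⊤ : Submodule B A)) : N = ⊤ := by
  by_contra hne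
  let I : Ideal B := Module.annihilator B (A ⧸ N)
  have hI : I ≠ ⊤ := by
    intro h1
    apply hne
    have h2 : (1 : B) ∈ I := by rw [h1]; trivial
    rw [Module.mem_annihilator] at h2
    rw [eq_top_iff]
    intro y _
    have := h2 (Submodule.Quotient.mk y)
    rw [one_smul] at this
    exact (Submodule.Quotient.mk_eq_zero N).1 this
  obtain ⟨n, hn, hIn⟩ := Ideal.exists_le_maximal I hI
  have htopn : (⊤ : Submodule B (A ⧸ N)) ≤ n • ⊤ := by
    intro m _
    obtain ⟨y, rfl⟩ := Submodule.Quotient.mk_surjective N m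
    obtain ⟨c, hcN, hc⟩ := hcore n hn y
    have h2 : N.mkQ (y - c) ∈ (n • ⊤ : Submodule B (A ⧸ N)) := by
      have h3 : N.mkQ (y - c) ∈ Submodule.map N.mkQ (n • ⊤ : Submodule B A) := ⟨_, hc, rfl⟩
      rw [Submodule.map_smul''] at h3
      exact Submodule.smul_mono (le_refl n) le_top h3
    have h5 : N.mkQ (y - c) = Submodule.Quotient.mk y := by
      rw [map_sub, Submodule.mkQ_apply, Submodule.mkQ_apply, (Submodule.Quotient.mk_eq_zero N).2 hcN, sub_zero]
    rw [← h5]
    exact h2
  obtain ⟨r, hr1, hr2⟩ := Submodule.exists_sub_one_mem_and_smul_eq_zero_of_fg_of_le_smul n (⊤ : Submodule B (A ⧸ N))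
    (Module.Finite.fg_top) htopn
  have hrI : r ∈ I := by
    rw [Module.mem_annihilator]
    intro m
    exact hr2 m trivial
  apply hn.ne_top
  rw [Ideal.eq_top_iff_one]
  have := n.sub_mem (hIn hrI) hr1
  simpa using this

/-- reduced integral equation -/
lemma red (B : Subalgebra k A) (t : A) (hint : IsIntegral B t) (φ : B →+* k) (J : Ideal A)
    (hφ : ∀ b : B, (b : A) - algebraMap k A (φ b) ∈ J) :
    ∃ f : Polynomial k, f ≠ 0 ∧ Polynomial.aeval t f ∈ J := by
  obtain ⟨F, hF1, hF2⟩ := hint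
  refine ⟨F.map φ, (hF1.map φ).ne_zero, ?_⟩
  have h1 : (Ideal.Quotient.mk J) (Polynomial.aeval t (F.map φ)) = (Ideal.Quotient.mk J) (Polynomial.eval₂ (algebraMap B A) t F) := by
    rw [Polynomial.aeval_def, Polynomial.eval₂_map, Polynomial.hom_eval₂, Polynomial.hom_eval₂]
    congr 1
    ext b
    have := hφ b
    rw [← Ideal.Quotient.eq_zero_iff_mem, map_sub, sub_eq_zero] at this
    simp only [RingHom.comp_apply]
    exact this.symm
  rw [hF2, map_zero] at h1
  exact Ideal.Quotient.eq_zero_iff_mem.1 h1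

lemma smul_top_mem {B : Subalgebra k A} (n : Ideal B) (y : A) (h : y ∈ n.map (algebraMap B A)) :
    y ∈ (n • ⊤ : Submodule B A) := by
  rw [Ideal.smul_top_eq_map]
  exact h

lemma span_mem {B : Subalgebra k A} (t : A) (c0 c1 : k) :
    algebraMap k A c0 + algebraMap k A c1 * t ∈ Submodule.span B {1, t} := by
  have e0 : (algebraMap k A c0 : A) = (⟨algebraMap k A c0, B.algebraMap_mem c0⟩ : B) • (1 : A) := by
    rw [Subalgebra.smul_def, smul_eq_mul, mul_one]
  have e1 : (algebraMap k A c1 * t : A) = (⟨algebraMap k A c1, B.algebraMap_mem c1⟩ : B) • t := by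
    rw [Subalgebra.smul_def, smul_eq_mul]
  rw [e0, e1]
  exact Submodule.add_mem _ (Submodule.smul_mem _ _ (Submodule.subset_span (by simp))) (Submodule.smul_mem _ _ (Submodule.subset_span (by simp)))

lemma span_top {B : Subalgebra k A} (t : A) (h : Submodule.span B {1, t} = ⊤) (a : A) :
    ∃ b ∈ B, ∃ b' ∈ B, a = b + b' * t := by
  have ha : a ∈ Submodule.span B {1, t} := by rw [h]; trivial
  rw [Submodule.mem_span_pair] at ha
  obtain ⟨b, b', hbb⟩ := ha
  refine ⟨b, b.2, b', b'.2, ?_⟩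
  rw [← hbb, Subalgebra.smul_def, Subalgebra.smul_def, smul_eq_mul, smul_eq_mul, mul_one]

lemma overMax (B : Subalgebra k A) [Module.Finite B A] (n : Ideal B) [n.IsMaximal] :
    ∃ P : Ideal A, P.IsMaximal ∧ P.comap (algebraMap B A) = n := by
  haveI : Algebra.IsIntegral B A := Algebra.IsIntegral.of_finite B A
  exact Ideal.exists_ideal_over_maximal_of_isIntegral (S := A) n (by
      intro y hy
      have : y = 0 := Subtype.ext hy
      rw [this]; exact n.zero_mem)

end abs

/-- (g1): `A = B + B t` -/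
theorem span_of_good (x : Fin 4 → AA) (t : AA) (hgen : Algebra.adjoin ℂ (insert t (Set.range x)) = ⊤)
    (hint : IsIntegral (Algebra.adjoin ℂ (Set.range x)) t)
    (himm : ∀ p ξ : Fin 2 → ℂ, (∀ i, ∑ j, ξ j * eval p (pderiv j (x i)) = 0) → ξ = 0)
    (hnt : ∀ p q r : Fin 2 → ℂ, (∀ i, eval p (x i) = eval q (x i)) →
      (∀ i, eval p (x i) = eval r (x i)) → p = q ∨ p = r ∨ q = r) (a : AA) :
    ∃ b ∈ Algebra.adjoin ℂ (Set.range x), ∃ b' ∈ Algebra.adjoin ℂ (Set.range x), a = b + b' * t := by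
  classical
  have hxB : ∀ i, x i ∈ Algebra.adjoin ℂ (Set.range x) := fun i => Algebra.subset_adjoin ⟨i, rfl⟩
  haveI hfin := finite_of (Set.range x) t hgen hint
  apply span_top
  generalize hB : Algebra.adjoin ℂ (Set.range x) = B at *
  apply nak
  intro n hn y
  obtain ⟨P, hP, hPn⟩ := overMax B n
  obtain ⟨p, hp⟩ := MvPolynomial.isMaximal_iff_eq_vanishingIdeal_singleton.1 hP
  have hnmem : ∀ b : B, eval p (b : AA) = 0 → b ∈ n := by
    intro b hb
    rw [← hPn, Ideal.mem_comap, hp, MvPolynomial.mem_vanishingIdeal_singleton_iff]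
    exact hb
  have hmem : ∀ b : B, (b : AA) - C (eval p (b : AA)) ∈ n.map (algebraMap B AA) := by
    intro b
    have hb : (b : AA) - C (eval p (b : AA)) ∈ B := B.sub_mem b.2 (B.algebraMap_mem _)
    exact Ideal.mem_map_of_mem (algebraMap B AA) (hnmem ⟨_, hb⟩ (by simp))
  obtain ⟨f, hf0, hf⟩ := red B t hint ((eval p).comp (algebraMap B AA)) (n.map (algebraMap B AA)) hmem
  obtain ⟨c0, c1, hc⟩ := core x t hgen himm hnt p (n.map (algebraMap B AA)) (fun i => hmem ⟨x i, hxB i⟩) f hf0 hf y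
  exact ⟨_, span_mem t c0 c1, smul_top_mem n _ hc⟩

end Pool.Agent.Helper794.PLg1
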